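import Mathlib
import Pool.Agent.N115.JT.Stm

/-!
# JT/3: the degree over the base field (written by helper530)
-/

set_option autoImplicit false

namespace Pool.Agent.N530.JT

open Polynomial

/-- the minimal polynomial over `L` of an element which is algebraic over a subfield `F` which is
algebraically closed in `L` has coefficients in `F` -/
theorem natDegree_minpoly_le {F L M : Type} [Field F] [Field L] [Field M] [Algebra F L]
    [Algebra L M] [Algebra F M] [IsScalarTower F L M] [FiniteDimensional L M]
    (hF : ∀ x : L, IsAlgebraic F x → x ∈ (algebraMap F L).range) (θ : M) (hθ : IsIntegral F θ) :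
    (minpoly F θ).natDegree ≤ Module.finrank L M := by
  have hθL : IsIntegral L θ := Algebra.IsIntegral.isIntegral θ
  have hd : minpoly L θ ∣ (minpoly F θ).map (algebraMap F L) :=
    minpoly.dvd_map_of_isScalarTower F L θ
  have h1 := integralClosure.mem_lifts_of_monic_of_dvd_map (K := L) (minpoly.monic hθ)
    (minpoly.monic hθL) hd
  have h2 : minpoly L θ ∈ lifts (algebraMap F L) := by
    rw [lifts_iff_coeff_lifts]
    intro n
    rw [lifts_iff_coeff_lifts] at h1
    obtain ⟨c, hc⟩ := h1 n
    obtain ⟨a, ha⟩ := hF _ (c.2.isAlgebraic)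
    exact ⟨a, ha.trans hc⟩
  obtain ⟨q, hq1, hq2, hq3⟩ := lifts_and_natDegree_eq_and_monic h2 (minpoly.monic hθL)
  have h3 : aeval θ q = 0 := by
    have h4 := minpoly.aeval L θ
    rw [← hq1, aeval_map_algebraMap] at h4
    exact h4
  calc (minpoly F θ).natDegree ≤ q.natDegree :=
        natDegree_le_of_dvd (minpoly.dvd F θ h3) hq3.ne_zero
    _ = (minpoly L θ).natDegree := hq2
    _ ≤ Module.finrank L M := minpoly.natDegree_le θ

/-- JT/3 -/
theorem dd : Pool.Agent.N115.JT.DegreeDown := by
  intro k L K' _ _ _ _ _ _ _ _ _ L0 hL0 S hS hSa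
  have hfin : FiniteDimensional L0 (IntermediateField.adjoin L0 S) := by
    have : Finite S := hS.to_subtype
    exact IntermediateField.finiteDimensional_adjoin fun x hx => (hSa x hx).isIntegral
  refine ⟨hfin, ?_⟩
  obtain ⟨θ, hθ⟩ := Field.exists_primitive_element L0 (IntermediateField.adjoin L0 S)
  rw [← (Field.primitive_element_iff_minpoly_natDegree_eq L0 θ).1 hθ,
    IntermediateField.minpoly_eq]
  have hint : IsIntegral L0 θ := Algebra.IsIntegral.isIntegral θ
  refine natDegree_minpoly_le (F := L0) (L := L) (M := K') ?_ (θ : K') ?_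
  · intro x hx
    exact ⟨⟨x, hL0 x hx⟩, rfl⟩
  · exact hint.map (IntermediateField.val _)

end Pool.Agent.N530.JT
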